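import Mathlib

set_option autoImplicit false

namespace Pool.Agent.Results.MP_c9cfcf_pr.LtOne

open scoped ENNReal Nat

/-- `P(X = i) = p_i^2 / f_2` -/
noncomputable def PX {C : Type} (p : PMF C) (i : C) : ℝ≥0∞ := p i ^ 2 / ∑' j, p j ^ 2

/-- `P(Y = i) = p_i^2 * sum_k (k+1)! * sum over k-sets J avoiding i of prod_{j in J} p_j` -/
noncomputable def PY {C : Type} (p : PMF C) (i : C) : ℝ≥0∞ :=
  p i ^ 2 * ∑' k : ℕ, ((k + 1)! : ℝ≥0∞) * ∑' J : {J : Finset C // i ∉ J ∧ J.card = k}, ∏ j ∈ J.1, p j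

/-- the total variation distance; `(x - y) + (y - x)` is `|x - y|` in `[0, ∞]` -/
noncomputable def D {C : Type} (p : PMF C) : ℝ≥0∞ :=
  2⁻¹ * ∑' i, ((PX p i - PY p i) + (PY p i - PX p i))

section
variable {C : Type} [DecidableEq C]

/-- elementary symmetric sums -/
noncomputable def E (q : C → ℝ≥0∞) (k : ℕ) : ℝ≥0∞ :=
  ∑' J : Finset C, if J.card = k then ∏ j ∈ J, q j else 0

lemma prod_upd (q : C → ℝ≥0∞) (i : C) (J : Finset C) :
    ∏ j ∈ J, Function.update q i 0 j = if i ∈ J then 0 else ∏ j ∈ J, q j := by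
  split_ifs with h
  · exact Finset.prod_eq_zero h (by simp)
  · exact Finset.prod_congr rfl fun j hj => Function.update_of_ne (by rintro rfl; exact h hj) _ _

omit [DecidableEq C] in
lemma E_zero (q : C → ℝ≥0∞) : E q 0 = 1 := by
  rw [E, tsum_eq_single ∅ (by intro J h; simp [h])]
  simp

lemma B_eq (q : C → ℝ≥0∞) (i : C) (k : ℕ) :
    (∑' J : Finset C, if i ∈ J then (if J.card = k + 1 then ∏ j ∈ J, q j else 0) else 0) =
      q i * E (Function.update q i 0) k := by
  have hinv : Function.Involutive fun J : Finset C => if i ∈ J then J.erase i else insert i J := by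
    intro J
    by_cases h : i ∈ J <;> simp [h]
  rw [E, ← ENNReal.tsum_mul_left, ← hinv.toPerm.tsum_eq]
  refine tsum_congr fun J => ?_
  by_cases h : i ∈ J <;> simp [h, prod_upd, Finset.prod_insert]

lemma E_split (q : C → ℝ≥0∞) (i : C) (k : ℕ) :
    E q (k + 1) = E (Function.update q i 0) (k + 1) + q i * E (Function.update q i 0) k := by
  rw [← B_eq, E, E, ← ENNReal.tsum_add]
  refine tsum_congr fun J => ?_
  by_cases h : i ∈ J <;> simp [h, prod_upd]

lemma E_sum (q : C → ℝ≥0∞) (k : ℕ) :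
    ∑' i, q i * E (Function.update q i 0) k = (k + 1) * E q (k + 1) := by
  simp only [← B_eq]
  rw [ENNReal.tsum_comm, E, ← ENNReal.tsum_mul_left]
  refine tsum_congr fun J => ?_
  rw [tsum_eq_sum (s := J) (by intro i h; simp [h]), Finset.sum_congr rfl fun i h => if_pos h]
  split_ifs with h <;> simp [h]

lemma E_one (q : C → ℝ≥0∞) : E q 1 = ∑' i, q i := by
  simpa [E_zero] using (E_sum q 0).symm

lemma E_rec (q : C → ℝ≥0∞) (k : ℕ) : (∑' i, q i) * E q (k + 1) =
    (k + 2) * E q (k + 2) + ∑' i, q i ^ 2 * E (Function.update q i 0) k := by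
  have := E_sum q (k + 1)
  push_cast at this
  rw [add_assoc, one_add_one_eq_two] at this
  rw [← this, ← ENNReal.tsum_add, ← ENNReal.tsum_mul_right]
  refine tsum_congr fun i => ?_
  rw [E_split q i k]
  ring

lemma upd_le (q : C → ℝ≥0∞) (i j : C) : Function.update q i 0 j ≤ q j := by
  by_cases h : j = i <;> simp [h]

lemma E_le (q : C → ℝ≥0∞) (h : ∑' i, q i ≤ 1) (k : ℕ) : (k ! : ℝ≥0∞) * E q k ≤ 1 := by
  induction k with
  | zero => simp [E_zero]
  | succ k ih =>
    cases k with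
    | zero => simpa [E_one] using h
    | succ k =>
      refine le_trans ?_ ih
      have := (le_self_add.trans (E_rec q k).ge).trans (mul_le_of_le_one_left' h)
      rw [Nat.factorial_succ (k + 1), mul_comm (k + 1 + 1)]
      push_cast
      rw [mul_assoc, add_assoc, one_add_one_eq_two]
      gcongr

lemma E_ge (q : C → ℝ≥0∞) (a f : ℝ≥0∞) (h : ∑' i, q i + a = 1) (hf : ∑' i, q i ^ 2 ≤ f) (k : ℕ) :
    1 ≤ (k ! : ℝ≥0∞) * E q k + k * a + k ^ 2 * f := by
  have h1 : ∑' i, q i ≤ 1 := le_self_add.trans h.le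
  induction k with
  | zero => simp [E_zero]
  | succ k ih =>
    have key : (k ! : ℝ≥0∞) * E q k ≤ ((k + 1)! : ℝ≥0∞) * E q (k + 1) + a + k * f := by
      have e : (k ! : ℝ≥0∞) * E q k = k ! * ((∑' i, q i) * E q k) + a * (k ! * E q k) := by
        conv_lhs => rw [← one_mul (_ * _), ← h]
        ring
      rw [e, add_right_comm]
      refine add_le_add ?_ (mul_le_of_le_one_right' (E_le q h1 k))
      cases k with
      | zero => simp [E_zero, E_one]
      | succ k =>
        rw [E_rec, mul_add, Nat.factorial_succ (k + 1), mul_comm (k + 1 + 1)]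
        refine add_le_add (le_of_eq (by push_cast; ring)) ?_
        rw [Nat.factorial_succ, Nat.cast_mul, mul_assoc, ← ENNReal.tsum_mul_left]
        refine mul_le_mul_right (le_trans (ENNReal.tsum_le_tsum fun i => ?_) hf) _
        rw [mul_left_comm]
        exact mul_le_of_le_one_right' (E_le _ ((ENNReal.tsum_le_tsum (upd_le q i)).trans h1) k)
    refine ih.trans ((add_le_add (add_le_add key le_rfl) le_rfl).trans ?_)
    push_cast
    calc _ ≤ ((k + 1)! : ℝ≥0∞) * E q (k + 1) + a + k * f + k * a + k ^ 2 * f + (k + 1) * f := le_self_add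
      _ = _ := by ring

lemma PY_eq (p : PMF C) (i : C) :
    PY p i = p i ^ 2 * ∑' k : ℕ, ((k + 1)! : ℝ≥0∞) * E (Function.update p i 0) k := by
  rw [PY]
  congr 2
  funext k
  congr 1
  refine (tsum_subtype {J : Finset C | i ∉ J ∧ J.card = k} (fun J => ∏ j ∈ J, p j)).trans
    (tsum_congr fun J => ?_)
  by_cases h : i ∈ J <;> by_cases h2 : J.card = k <;> simp [h, h2, prod_upd]

lemma PY_sum (p : PMF C) : ∑' i, PY p i ≤ 1 := by
  simp only [PY_eq, ← ENNReal.tsum_mul_left]
  rw [ENNReal.tsum_comm]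
  have : ∀ n : ℕ, ∑ k ∈ Finset.range n, ∑' i, p i ^ 2 * (((k + 1)! : ℝ≥0∞) * E (Function.update p i 0) k) +
      ((n + 1)! : ℝ≥0∞) * E p (n + 1) = 1 := by
    intro n
    induction n with
    | zero => simp [E_one]
    | succ n ih =>
      have := E_rec p n
      rw [p.tsum_coe, one_mul] at this
      rw [← ih, this, Finset.sum_range_succ, mul_add, ← ENNReal.tsum_mul_left, Nat.factorial_succ (n + 1)]
      simp only [mul_left_comm]
      push_cast
      ring
  exact ENNReal.tsum_le_of_sum_range_le fun n => le_self_add.trans (this n).le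

lemma PY_ge (p : PMF C) (i : C) : 32⁻¹ * PX p i ≤ PY p i := by
  set f := ∑' j, p j ^ 2 with hf
  have f0 : f ≠ 0 := by
    obtain ⟨j, hj⟩ := p.support_nonempty
    exact fun h => hj (pow_eq_zero_iff two_ne_zero |>.1 (ENNReal.tsum_eq_zero.1 h j))
  have hex : ∃ n : ℕ, 1 < 4 * n ^ 2 * f := by
    obtain ⟨n, hn⟩ := ENNReal.exists_nat_mul_gt f0 ENNReal.one_ne_top
    refine ⟨n, hn.trans_le (mul_le_mul_left ?_ _)⟩
    exact_mod_cast (by nlinarith : n ≤ 4 * n ^ 2)
  have h1 := Nat.find_spec hex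
  have h2 : ∀ k < Nat.find hex, 4⁻¹ ≤ (k ! : ℝ≥0∞) * E (Function.update p i 0) k := by
    intro k hk
    have h3 := not_lt.1 (Nat.find_min hex hk)
    have h4 := E_ge (Function.update p i 0) (p i) f (by
      rw [← p.tsum_coe, ENNReal.tsum_eq_add_tsum_ite i (f := p), add_comm]
      congr 1
      exact tsum_congr fun j => by by_cases h : j = i <;> simp [h])
      (ENNReal.tsum_le_tsum fun j => pow_le_pow_left' (upd_le p i j) 2) k
    have h5 : 2 * (k * p i) ≤ 1 := by
      rw [← pow_le_one_iff (two_ne_zero)]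
      refine le_trans ?_ h3
      calc (2 * (k * p i)) ^ 2 = 4 * k ^ 2 * p i ^ 2 := by ring
        _ ≤ _ := mul_le_mul_right (ENNReal.le_tsum (f := fun j => p j ^ 2) i) _
    have h6 : (1 : ℝ≥0∞) + 3 ≤ 4 * ((k ! : ℝ≥0∞) * E (Function.update p i 0) k) + 3 :=
      calc (1 : ℝ≥0∞) + 3 = 4 * 1 := by norm_num
        _ ≤ 4 * ((k ! : ℝ≥0∞) * E (Function.update p i 0) k + k * p i + k ^ 2 * f) := by gcongr
        _ = 4 * ((k ! : ℝ≥0∞) * E (Function.update p i 0) k) + (2 * (2 * (k * p i)) + 4 * k ^ 2 * f) := by ring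
        _ ≤ 4 * ((k ! : ℝ≥0∞) * E (Function.update p i 0) k) + (2 * 1 + 1) := by gcongr
        _ = _ := by norm_num
    rw [ENNReal.add_le_add_iff_right (by simp)] at h6
    rwa [ENNReal.inv_le_iff_le_mul (by simp) (by simp)]
  have h7 : ∀ n : ℕ, (n : ℝ≥0∞) ^ 2 ≤ 2 * ∑ k ∈ Finset.range n, ((k : ℝ≥0∞) + 1) := by
    intro n
    induction n with
    | zero => simp
    | succ n ih =>
      rw [Finset.sum_range_succ, mul_add]
      push_cast
      calc ((n : ℝ≥0∞) + 1) ^ 2 ≤ (n + 1) ^ 2 + 1 := le_self_add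
        _ = n ^ 2 + 2 * (n + 1) := by ring
        _ ≤ _ := by gcongr
  rw [PY_eq, PX, ← hf, div_eq_mul_inv, mul_left_comm]
  refine mul_le_mul_right (le_trans ?_ (ENNReal.sum_le_tsum (Finset.range (Nat.find hex)))) _
  calc 32⁻¹ * f⁻¹ ≤ (∑ k ∈ Finset.range (Nat.find hex), ((k : ℝ≥0∞) + 1)) * 4⁻¹ := by
        rw [← ENNReal.mul_inv (by simp) (by simp), ENNReal.inv_le_iff_le_mul (by simp [f0]) (fun _ h0 => by
          have := h7 (Nat.find hex)
          rw [mul_eq_zero.1 h0 |>.resolve_right (by simp), mul_zero] at this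
          rw [le_zero_iff.1 this] at h1
          simp at h1)]
        calc (1 : ℝ≥0∞) ≤ 4 * (Nat.find hex) ^ 2 * f := h1.le
          _ ≤ 4 * (2 * ∑ k ∈ Finset.range (Nat.find hex), ((k : ℝ≥0∞) + 1)) * f * (4 * 4⁻¹) := by
            rw [ENNReal.mul_inv_cancel (by simp) (by simp), mul_one]
            gcongr
            exact h7 _
          _ = _ := by ring
    _ ≤ _ := by
        rw [Finset.sum_mul]
        refine Finset.sum_le_sum fun k hk => ?_
        rw [Nat.factorial_succ, Nat.cast_mul, mul_assoc]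
        push_cast
        exact mul_le_mul_right (h2 k (Finset.mem_range.1 hk)) _

end

theorem result : ∀ (C : Type) (p : PMF C), D p ≤ 31 / 32 := by
  intro C p
  classical
  have hX : ∑' i, PX p i = 1 := by
    simp only [PX, div_eq_mul_inv]
    rw [ENNReal.tsum_mul_right, ENNReal.mul_inv_cancel]
    · obtain ⟨j, hj⟩ := p.support_nonempty
      exact fun h => hj (pow_eq_zero_iff two_ne_zero |>.1 (ENNReal.tsum_eq_zero.1 h j))
    · refine ne_top_of_le_ne_top ENNReal.one_ne_top ?_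
      rw [← p.tsum_coe]
      exact ENNReal.tsum_le_tsum fun j => pow_le_of_le_one zero_le (p.coe_le_one j) two_ne_zero
  have h1 : ∀ i, (PX p i - PY p i) + (PY p i - PX p i) + 2 * (32⁻¹ * PX p i) ≤ PX p i + PY p i := by
    intro i
    have a1 := PY_ge p i
    have a2 : 32⁻¹ * PX p i ≤ PX p i := mul_le_of_le_one_left' (by simp)
    rcases le_total (PX p i) (PY p i) with h | h
    · rw [tsub_eq_zero_of_le h, zero_add, two_mul]
      calc _ ≤ PY p i - PX p i + (PX p i + PX p i) := by gcongr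
        _ = _ := by rw [← add_assoc, tsub_add_cancel_of_le h, add_comm]
    · rw [tsub_eq_zero_of_le h, add_zero, two_mul]
      calc _ ≤ PX p i - PY p i + (PY p i + PY p i) := by gcongr
        _ = _ := by rw [← add_assoc, tsub_add_cancel_of_le h]
  have h2 := ENNReal.tsum_le_tsum h1
  rw [ENNReal.tsum_add, ENNReal.tsum_add (f := PX p), ENNReal.tsum_mul_left, ENNReal.tsum_mul_left, hX] at h2
  have h3 := h2.trans (add_le_add le_rfl (PY_sum p))
  have e : (1 : ℝ≥0∞) + 1 = 2 * (31 / 32) + 2 * (32⁻¹ * 1) := by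
    rw [← mul_add, mul_one, ← one_div, ← ENNReal.add_div, show (31 : ℝ≥0∞) + 1 = 32 by norm_num,
      ENNReal.div_self (by simp) (by simp)]
    norm_num
  rw [e, ENNReal.add_le_add_iff_right (by simp [ENNReal.mul_eq_top])] at h3
  rw [D]
  refine (mul_le_mul_right h3 _).trans (le_of_eq ?_)
  rw [← mul_assoc, ENNReal.inv_mul_cancel (by simp) (by simp), one_mul]

end Pool.Agent.Results.MP_c9cfcf_pr.LtOne
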